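import Pool.Agent.Y522.NA.StmT
import Pool.Agent.Y496.SH.Rad

/-!
# Diffeomorphism germs at infinity extend to homeomorphisms which are diffeomorphisms off one point
(job TP-Punc of helper522)
-/

set_option autoImplicit false

open Set Filter Topology Metric Function
open scoped Manifold ContDiff

noncomputable section

namespace Pool.Agent.Y901.TP

open Pool.Agent.Y522
open Pool.Agent.Y496.SH (al al_one al_zero al_nonneg al_anti al_smooth deriv_anti radial_inj radial_surj)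

variable {n : ℕ}

/-- the radial map: `e^{-κ} x` near the origin, `x` far away -/
def Rm (κ a b : ℝ) (x : E n) : E n := Real.exp (-(κ * al a b (‖x‖ ^ 2))) • x

theorem Rm_smooth (κ a b : ℝ) : ContDiff ℝ ∞ (Rm κ a b (n := n)) := by
  have h0 : ContDiff ℝ ∞ (fun z : E n => ‖z‖ ^ 2) := contDiff_norm_sq ℝ
  have h1 : ContDiff ℝ ∞ (fun x : E n => Real.exp (-(κ * al a b (‖x‖ ^ 2)))) :=
    Real.contDiff_exp.comp ((contDiff_const.mul ((al_smooth a b).comp h0)).neg)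
  have h2 : ContDiff ℝ ∞ (fun x : E n => x) := contDiff_id
  exact h1.smul h2

theorem Rm_fderiv (κ a b : ℝ) (x : E n) : ∃ L : E n →L[ℝ] E n, HasFDerivAt (Rm κ a b (n := n)) L x ∧
    ∀ v, L v = Real.exp (-(κ * al a b (‖x‖ ^ 2))) • v + (Real.exp (-(κ * al a b (‖x‖ ^ 2))) *
      -(κ * (deriv (al a b) (‖x‖ ^ 2) * (2 * inner ℝ x v)))) • x := by
  have hn : HasFDerivAt (fun z : E n => ‖z‖ ^ 2) (2 • (innerSL ℝ x)) x :=
    (hasStrictFDerivAt_norm_sq x).hasFDerivAt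
  have hα : HasDerivAt (al a b) (deriv (al a b) (‖x‖ ^ 2)) (‖x‖ ^ 2) :=
    ((al_smooth a b).differentiable (by simp)).differentiableAt.hasDerivAt
  have h1 := hα.comp_hasFDerivAt x hn
  have h3 := (h1.const_mul κ).neg.exp
  have h4 := h3.smul (hasFDerivAt_id x)
  refine ⟨_, h4, fun v => ?_⟩
  simp

theorem Rm_LD {κ a b : ℝ} (hκ : 0 ≤ κ) (hab : a < b) (x : E n) : LD n (Rm κ a b) x := by
  obtain ⟨L, hTh, hL⟩ := Rm_fderiv κ a b x
  have hinj : Injective L := by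
    rw [injective_iff_map_eq_zero]
    intro v hv
    rw [hL] at hv
    obtain ⟨c, hc⟩ : ∃ c : ℝ, c = Real.exp (-(κ * al a b (‖x‖ ^ 2))) := ⟨_, rfl⟩
    rw [← hc] at hv
    have hc0 : 0 < c := by rw [hc]; exact Real.exp_pos _
    obtain ⟨w, hw⟩ : ∃ w : ℝ, w = inner ℝ x v := ⟨_, rfl⟩
    have h6 := congrArg (fun y : E n => inner ℝ y v) hv
    simp only [inner_add_left, real_inner_smul_left, inner_zero_left,
      real_inner_self_eq_norm_sq] at h6
    rw [← hw] at h6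
    have hd := deriv_anti (al_anti hab) (‖x‖ ^ 2)
    have h7 : c * (‖v‖ ^ 2 + κ * (-deriv (al a b) (‖x‖ ^ 2)) * (2 * w ^ 2)) = 0 := by
      linear_combination h6
    have h8 : 0 ≤ κ * (-deriv (al a b) (‖x‖ ^ 2)) * (2 * w ^ 2) := by
      have : 0 ≤ -deriv (al a b) (‖x‖ ^ 2) := by linarith
      positivity
    have h9 := (mul_eq_zero.1 h7).resolve_left hc0.ne'
    have h10 : ‖v‖ ^ 2 = 0 := by
      have := sq_nonneg ‖v‖
      linarith
    exact norm_eq_zero.1 (pow_eq_zero_iff two_ne_zero |>.1 h10)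
  obtain ⟨B, hB⟩ : ∃ B : E n ≃L[ℝ] E n, (B : E n →L[ℝ] E n) = L :=
    ⟨(LinearEquiv.ofInjectiveEndo L.toLinearMap hinj).toContinuousLinearEquiv, by ext v; rfl⟩
  refine LD_of_contDiffAt (Eventually.of_forall fun y => (Rm_smooth κ a b).contDiffAt) B ?_
  rw [hB]
  exact hTh

/-- bijective local diffeomorphisms -/
def Dif (F : E n ≃ E n) : Prop := ∀ x, LD n F x

theorem Dif.symm {F : E n ≃ E n} (hF : Dif F) : Dif F.symm := fun y =>
  LD.inverse_bij F.bijective hF (fun x => F.symm_apply_apply x) y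

theorem Dif.trans {F G : E n ≃ E n} (hF : Dif F) (hG : Dif G) : Dif (F.trans G) := by
  intro x
  exact LD.comp' (g := G) (f := F) (hG (F x)) (hF x)

theorem Rm_bij {κ a b : ℝ} (hκ : 0 ≤ κ) (hab : a < b) : Bijective (Rm κ a b (n := n)) := by
  constructor
  · intro v w h
    exact radial_inj (al_anti hab) hκ h
  · intro w
    exact radial_surj (al_smooth a b).continuous (fun s hs => al_zero hab hs) κ w

/-- the radial map as an equivalence -/
def RmE {κ a b : ℝ} (hκ : 0 ≤ κ) (hab : a < b) : E n ≃ E n := Equiv.ofBijective _ (Rm_bij hκ hab)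

theorem RmE_dif {κ a b : ℝ} (hκ : 0 ≤ κ) (hab : a < b) : Dif (RmE hκ hab (n := n)) := Rm_LD hκ hab

theorem RmE_apply {κ a b : ℝ} (hκ : 0 ≤ κ) (hab : a < b) (x : E n) :
    RmE hκ hab x = Rm κ a b x := rfl

/-- scaling -/
def Sc {l : ℝ} (hl : l ≠ 0) : E n ≃ E n := (LinearEquiv.smulOfNeZero ℝ (E n) l hl).toEquiv

theorem Sc_apply {l : ℝ} (hl : l ≠ 0) (x : E n) : Sc hl x = l • x := rfl

theorem Sc_dif {l : ℝ} (hl : l ≠ 0) : Dif (Sc hl (n := n)) := by
  intro x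
  have h := LD_linear ((LinearEquiv.smulOfNeZero ℝ (E n) l hl).toContinuousLinearEquiv) x
  exact h

theorem LD_smul {l : ℝ} (hl : l ≠ 0) (x : E n) : LD n (fun y : E n => l • y) x := Sc_dif hl x

/-- images of the outer regions are closed -/
theorem closed_image {k : E n → E n} {a : ℝ} (h1 : ∀ x, a ≤ ‖x‖ → LD n k x)
    (h3 : ∀ R : ℝ, ∃ r : ℝ, ∀ x, r ≤ ‖x‖ → R ≤ ‖k x‖) {s : ℝ} (hs : a ≤ s) :
    IsClosed (k '' {x | s ≤ ‖x‖}) := by
  rw [← closure_subset_iff_isClosed]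
  intro y hy
  obtain ⟨r, hr⟩ := h3 (‖y‖ + 1)
  have hK : IsCompact (closedBall (0 : E n) r ∩ {x | s ≤ ‖x‖}) :=
    (isCompact_closedBall 0 r).inter_right (isClosed_le continuous_const continuous_norm)
  have hc : ContinuousOn k (closedBall (0 : E n) r ∩ {x | s ≤ ‖x‖}) := fun x hx =>
    (h1 x (hs.trans hx.2)).continuousAt.continuousWithinAt
  have hcl := (hK.image_of_continuousOn hc).isClosed
  have h5 : y ∈ closure (k '' (closedBall (0 : E n) r ∩ {x | s ≤ ‖x‖})) := by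
    rw [mem_closure_iff_nhds] at hy ⊢
    intro t ht
    have h6 : ball (0 : E n) (‖y‖ + 1) ∈ 𝓝 y := isOpen_ball.mem_nhds (by simp)
    obtain ⟨z, ⟨hz1, hz2⟩, x, hx, rfl⟩ := hy _ (inter_mem ht h6)
    refine ⟨k x, hz1, x, ⟨?_, hx⟩, rfl⟩
    rw [mem_closedBall_zero_iff]
    by_contra hcon
    have h7 := hr x (not_le.1 hcon).le
    rw [mem_ball_zero_iff] at hz2
    linarith
  rw [hcl.closure_eq] at h5
  exact image_mono inter_subset_right h5

section conj

variable {k : E n → E n} {a : ℝ} (Θ : E n ≃ E n)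

/-- the inverse of `k` on the image of the outer region -/
def kinv (k : E n → E n) (a : ℝ) (y : E n) : E n :=
  open Classical in if h : ∃ x, a < ‖x‖ ∧ k x = y then h.choose else 0

theorem kinv_k (h2 : InjOn k {x | a ≤ ‖x‖}) {x : E n} (hx : a < ‖x‖) : kinv k a (k x) = x := by
  have h : ∃ x', a < ‖x'‖ ∧ k x' = k x := ⟨x, hx, rfl⟩
  unfold kinv
  rw [dif_pos h]
  exact h2 h.choose_spec.1.le hx.le h.choose_spec.2

/-- conjugation by `k`, extended by the identity -/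
def cj (k : E n → E n) (a : ℝ) (Θ : E n → E n) (y : E n) : E n :=
  open Classical in if ∃ x, a < ‖x‖ ∧ k x = y then k (Θ (kinv k a y)) else y

theorem cj_k (h2 : InjOn k {x | a ≤ ‖x‖}) (Θ : E n → E n) {x : E n} (hx : a < ‖x‖) :
    cj k a Θ (k x) = k (Θ x) := by
  have h : ∃ x', a < ‖x'‖ ∧ k x' = k x := ⟨x, hx, rfl⟩
  unfold cj
  rw [if_pos h, kinv_k h2 hx]

theorem cj_out (Θ : E n → E n) {y : E n} (hy : ¬ ∃ x, a < ‖x‖ ∧ k x = y) : cj k a Θ y = y := by
  unfold cj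
  rw [if_neg hy]

theorem cj_cj (h2 : InjOn k {x | a ≤ ‖x‖}) {Θ Θ' : E n → E n} (hΘ : ∀ x, a < ‖x‖ → a < ‖Θ x‖)
    (hinv : ∀ x, Θ' (Θ x) = x) (y : E n) : cj k a Θ' (cj k a Θ y) = y := by
  by_cases h : ∃ x, a < ‖x‖ ∧ k x = y
  · obtain ⟨x, hx, rfl⟩ := h
    rw [cj_k h2 Θ hx, cj_k h2 Θ' (hΘ x hx), hinv]
  · rw [cj_out Θ h, cj_out Θ' h]

theorem cj_LD (h1 : ∀ x, a ≤ ‖x‖ → LD n k x) (h2 : InjOn k {x | a ≤ ‖x‖})
    (h3 : ∀ R : ℝ, ∃ r : ℝ, ∀ x, r ≤ ‖x‖ → R ≤ ‖k x‖) {Θ : E n → E n} {s : ℝ} (hs : a < s)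
    (hΘ : ∀ x, a < ‖x‖ → a < ‖Θ x‖) (hid : ∀ x, ‖x‖ ≤ s → Θ x = x) (hLD : ∀ x, LD n Θ x) (y : E n) :
    LD n (cj k a Θ) y := by
  have hUo : IsOpen {x : E n | a < ‖x‖} := isOpen_lt continuous_const continuous_norm
  by_cases h : ∃ x, a < ‖x‖ ∧ k x = y
  · obtain ⟨x, hx, rfl⟩ := h
    have e1 : LD n (kinv k a) (k x) :=
      LD.inverse hUo (fun z hz => h1 z (le_of_lt hz)) (fun z hz => kinv_k h2 hz) hx
    have e2 : LD n (fun y => Θ (kinv k a y)) (k x) := LD.comp_fun (hLD _) e1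
    have e3 : LD n (fun y => k (Θ (kinv k a y))) (k x) := by
      refine LD.comp_fun (g := k) (f := fun y => Θ (kinv k a y)) ?_ e2
      rw [kinv_k h2 hx]
      exact h1 _ (hΘ x hx).le
    refine e3.congr ?_
    have h4 : k '' {x : E n | a < ‖x‖} ∈ 𝓝 (k x) :=
      (h1 x hx.le).image_mem_nhds (hUo.mem_nhds hx)
    filter_upwards [h4] with z hz
    obtain ⟨w, hw, rfl⟩ := hz
    rw [cj_k h2 Θ hw, kinv_k h2 hw]
  · have h5 : y ∉ k '' {x | s ≤ ‖x‖} := by
      rintro ⟨x, hx, rfl⟩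
      exact h ⟨x, hs.trans_le hx, rfl⟩
    have h6 : (k '' {x | s ≤ ‖x‖})ᶜ ∈ 𝓝 y := (closed_image h1 h3 hs.le).isOpen_compl.mem_nhds h5
    refine (LD.id y).congr ?_
    filter_upwards [h6] with z hz
    by_cases h7 : ∃ x, a < ‖x‖ ∧ k x = z
    · obtain ⟨x, hx, rfl⟩ := h7
      rw [cj_k h2 Θ hx]
      have h8 : ‖x‖ ≤ s := by
        by_contra hc
        exact hz ⟨x, (not_le.1 hc).le, rfl⟩
      rw [hid x h8]
    · exact cj_out Θ h7

end conj

/-- the data: a diffeomorphism `W` of the space which is scaling near the origin and conjugate to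
scaling by `k` near infinity -/
structure WD (k : E n → E n) (a3 l μ ε b' : ℝ) (W : E n ≃ E n) : Prop where
  dif : Dif W
  hl : 1 < l
  hμ : 1 < μ
  ha : 0 < a3
  hε : 0 < ε
  near : ∀ y, ‖y‖ < ε → W y = μ • y
  far : ∀ x, a3 ≤ ‖x‖ → W (k x) = k (l • x)
  mid : ∀ y, ε ≤ ‖y‖ → b' ≤ ‖W y‖
  img : ∀ y, b' ≤ ‖y‖ → ∃ x, a3 ≤ ‖x‖ ∧ k x = y

theorem exists_WD {k : E n → E n} {a ε b : ℝ} (ha : 0 < a) (hε : 0 < ε)
    (h1 : ∀ x, a ≤ ‖x‖ → LD n k x) (h2 : InjOn k {x | a ≤ ‖x‖})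
    (h3 : ∀ R : ℝ, ∃ r : ℝ, ∀ x, r ≤ ‖x‖ → R ≤ ‖k x‖) (h4 : ∀ x, a ≤ ‖x‖ → ε ≤ ‖k x‖)
    (h5 : ∀ y, b ≤ ‖y‖ → ∃ x, a ≤ ‖x‖ ∧ k x = y) :
    ∃ (l μ b' : ℝ) (W : E n ≃ E n), WD k (3 * a) l μ ε b' W := by
  -- the constant b'
  obtain ⟨B1, hB1⟩ : ∃ B1 : ℝ, ∀ x : E n, a ≤ ‖x‖ → ‖x‖ ≤ 3 * a → ‖k x‖ ≤ B1 := by
    have hK : IsCompact (closedBall (0 : E n) (3 * a) ∩ {x | a ≤ ‖x‖}) :=
      (isCompact_closedBall 0 _).inter_right (isClosed_le continuous_const continuous_norm)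
    have hc : ContinuousOn k (closedBall (0 : E n) (3 * a) ∩ {x | a ≤ ‖x‖}) := fun x hx =>
      (h1 x hx.2).continuousAt.continuousWithinAt
    obtain ⟨C, hC⟩ := hK.exists_bound_of_continuousOn hc
    exact ⟨C, fun x hx1 hx2 => hC x ⟨by rw [mem_closedBall_zero_iff]; exact hx2, hx1⟩⟩
  obtain ⟨b', hb'⟩ : ∃ b' : ℝ, b' = max (max b (2 * ε)) (B1 + 1) := ⟨_, rfl⟩
  have hb1 : b ≤ b' := by rw [hb']; exact (le_max_left _ _).trans (le_max_left _ _)
  have hb2 : 2 * ε ≤ b' := by rw [hb']; exact (le_max_right _ _).trans (le_max_left _ _)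
  have hb3 : B1 + 1 ≤ b' := by rw [hb']; exact le_max_right _ _
  have hb0 : 0 < b' := by linarith
  obtain ⟨μ, hμ⟩ : ∃ μ : ℝ, μ = b' / ε := ⟨_, rfl⟩
  have hμ1 : 2 ≤ μ := by
    rw [hμ, le_div_iff₀ hε]
    exact hb2
  have hμ0 : 0 < μ := by linarith
  have hμb : μ * ε = b' := by
    rw [hμ]
    field_simp
  -- the compression
  have hκ2 : 0 ≤ Real.log μ := Real.log_nonneg (by linarith)
  have hab2 : b' ^ 2 < 4 * b' ^ 2 := by nlinarith
  obtain ⟨c2, hc2⟩ : ∃ c2 : E n ≃ E n, c2 = RmE hκ2 hab2 := ⟨_, rfl⟩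
  have hc2d : Dif c2 := by rw [hc2]; exact RmE_dif hκ2 hab2
  have hc2n : ∀ x : E n, ‖x‖ ≤ b' → c2 x = μ⁻¹ • x := by
    intro x hx
    rw [hc2, RmE_apply]
    unfold Rm
    rw [al_one hab2 (pow_le_pow_left₀ (norm_nonneg x) hx 2), mul_one, Real.exp_neg, Real.exp_log hμ0]
  have hc2f : ∀ x : E n, 2 * b' ≤ ‖x‖ → c2 x = x := by
    intro x hx
    rw [hc2, RmE_apply]
    unfold Rm
    rw [al_zero hab2 (by nlinarith), mul_zero, neg_zero, Real.exp_zero, one_smul]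
  -- the factor λ
  obtain ⟨r, hr⟩ := h3 (2 * b')
  obtain ⟨l, hl⟩ : ∃ l : ℝ, l = max 2 (r / (3 * a)) := ⟨_, rfl⟩
  have hl2 : 2 ≤ l := by rw [hl]; exact le_max_left _ _
  have hl0 : 0 < l := by linarith
  have hlr : r ≤ 3 * a * l := by
    have h6 : r / (3 * a) ≤ l := by rw [hl]; exact le_max_right _ _
    rw [div_le_iff₀ (by positivity)] at h6
    linarith
  -- the expansion in the source
  have hκ1 : 0 ≤ Real.log l := Real.log_nonneg (by linarith)
  have hab1 : (2 * a) ^ 2 < (3 * a) ^ 2 := by nlinarith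
  obtain ⟨Θ, hΘ⟩ : ∃ Θ : E n ≃ E n, Θ = (RmE hκ1 hab1).trans (Sc hl0.ne') := ⟨_, rfl⟩
  have hΘd : Dif Θ := by
    rw [hΘ]
    exact (RmE_dif hκ1 hab1).trans (Sc_dif hl0.ne')
  have hΘe : ∀ x : E n, Θ x = l • Rm (Real.log l) ((2 * a) ^ 2) ((3 * a) ^ 2) x := by
    intro x
    rw [hΘ]
    rfl
  have hΘn : ∀ x : E n, ‖x‖ ≤ 2 * a → Θ x = x := by
    intro x hx
    rw [hΘe]
    unfold Rm
    rw [al_one hab1 (pow_le_pow_left₀ (norm_nonneg x) hx 2), mul_one, Real.exp_neg, Real.exp_log hl0,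
      smul_smul, mul_inv_cancel₀ hl0.ne', one_smul]
  have hΘf : ∀ x : E n, 3 * a ≤ ‖x‖ → Θ x = l • x := by
    intro x hx
    rw [hΘe]
    unfold Rm
    rw [al_zero hab1 (pow_le_pow_left₀ (by positivity) hx 2), mul_zero, neg_zero, Real.exp_zero,
      one_smul]
  have hΘo : ∀ x : E n, a < ‖x‖ → a < ‖Θ x‖ := by
    intro x hx
    by_contra hc
    have h6 : Θ (Θ x) = Θ x := hΘn _ (by linarith)
    have h7 : Θ x = x := Θ.injective h6
    rw [h7] at hc
    exact hc hx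
  have hΘs : ∀ x : E n, ‖x‖ ≤ 2 * a → Θ.symm x = x := by
    intro x hx
    rw [Equiv.symm_apply_eq]
    exact (hΘn x hx).symm
  have hΘso : ∀ x : E n, a < ‖x‖ → a < ‖Θ.symm x‖ := by
    intro x hx
    by_contra hc
    have h6 : Θ (Θ.symm x) = Θ.symm x := hΘn _ (by linarith)
    rw [Equiv.apply_symm_apply] at h6
    rw [← h6] at hc
    exact hc hx
  -- the conjugated map
  obtain ⟨v1, hv1⟩ : ∃ v1 : E n ≃ E n, ∀ y, v1 y = cj k a Θ y :=
    ⟨⟨cj k a Θ, cj k a Θ.symm, fun y => cj_cj h2 hΘo (fun x => Θ.symm_apply_apply x) y,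
      fun y => cj_cj h2 hΘso (fun x => Θ.apply_symm_apply x) y⟩, fun y => rfl⟩
  have hv1f : (v1 : E n → E n) = cj k a Θ := funext hv1
  have hv1d : Dif v1 := by
    intro y
    rw [hv1f]
    exact cj_LD h1 h2 h3 (show a < 2 * a by linarith) hΘo hΘn hΘd y
  have hv1ε : ∀ y, ε ≤ ‖y‖ → ε ≤ ‖v1 y‖ := by
    intro y hy
    rw [hv1]
    by_cases h : ∃ x, a < ‖x‖ ∧ k x = y
    · obtain ⟨x, hx, rfl⟩ := h
      rw [cj_k h2 Θ hx]
      exact h4 _ (hΘo x hx).le
    · rw [cj_out Θ h]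
      exact hy
  have himg : ∀ y, b' ≤ ‖y‖ → ∃ x, 3 * a ≤ ‖x‖ ∧ k x = y := by
    intro y hy
    obtain ⟨x, hx, rfl⟩ := h5 y (hb1.trans hy)
    refine ⟨x, ?_, rfl⟩
    by_contra hc
    have h6 := hB1 x hx (not_le.1 hc).le
    linarith
  refine ⟨l, μ, b', v1.trans c2.symm, ?_⟩
  refine ⟨hv1d.trans hc2d.symm, by linarith, by linarith, by positivity, hε, ?_, ?_, ?_, himg⟩
  · intro y hy
    have h6 : v1 y = y := by
      rw [hv1]
      refine cj_out Θ ?_
      rintro ⟨x, hx, rfl⟩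
      have := h4 x hx.le
      linarith
    show c2.symm (v1 y) = μ • y
    rw [h6, Equiv.symm_apply_eq, hc2n (μ • y) ?_, smul_smul, inv_mul_cancel₀ hμ0.ne', one_smul]
    rw [norm_smul, Real.norm_of_nonneg hμ0.le, ← hμb]
    exact mul_le_mul_of_nonneg_left hy.le hμ0.le
  · intro x hx
    have h6 : v1 (k x) = k (l • x) := by
      rw [hv1, cj_k h2 Θ (by linarith), hΘf x hx]
    show c2.symm (v1 (k x)) = k (l • x)
    rw [h6, Equiv.symm_apply_eq]
    refine (hc2f _ (hr _ ?_)).symm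
    rw [norm_smul, Real.norm_of_nonneg hl0.le]
    nlinarith
  · intro y hy
    have h6 := hv1ε y hy
    show b' ≤ ‖c2.symm (v1 y)‖
    by_contra hc
    rw [not_le] at hc
    have h7 := hc2n _ hc.le
    rw [Equiv.apply_symm_apply] at h7
    rw [h7, norm_smul, Real.norm_of_nonneg (inv_pos.2 hμ0).le] at h6
    have h8 : μ * ε ≤ ‖c2.symm (v1 y)‖ := by
      have h9 := mul_le_mul_of_nonneg_left h6 hμ0.le
      rwa [← mul_assoc, mul_inv_cancel₀ hμ0.ne', one_mul] at h9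
    rw [hμb] at h8
    linarith

section limit

variable {k : E n → E n} {a a3 l μ ε b' : ℝ} {W : E n ≃ E n}

/-- the maps which converge to the extension -/
def GJ (k : E n → E n) (l : ℝ) (W : E n ≃ E n) (j : ℕ) (x : E n) : E n := (W.symm)^[j] (k (l ^ j • x))

theorem GJ_succ (h : WD k a3 l μ ε b' W) {j : ℕ} {x : E n} (hx : a3 ≤ l ^ j * ‖x‖) :
    GJ k l W (j + 1) x = GJ k l W j x := by
  have hl0 : 0 < l := zero_lt_one.trans h.hl
  unfold GJ
  rw [iterate_succ_apply]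
  congr 1
  rw [Equiv.symm_apply_eq, h.far _ ?_, smul_smul, pow_succ']
  rw [norm_smul, Real.norm_of_nonneg (by positivity)]
  exact hx

theorem GJ_le (h : WD k a3 l μ ε b' W) {i j : ℕ} (hij : i ≤ j) {x : E n} (hx : a3 ≤ l ^ i * ‖x‖) :
    GJ k l W j x = GJ k l W i x := by
  induction j, hij using Nat.le_induction with
  | base => rfl
  | succ j hij ih =>
    rw [GJ_succ h, ih]
    exact hx.trans (mul_le_mul_of_nonneg_right (pow_le_pow_right₀ h.hl.le hij) (norm_nonneg x))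

theorem exists_j (h : WD k a3 l μ ε b' W) {x : E n} (hx : x ≠ 0) : ∃ j : ℕ, a3 < l ^ j * ‖x‖ := by
  have hx0 : 0 < ‖x‖ := norm_pos_iff.2 hx
  obtain ⟨j, hj⟩ := pow_unbounded_of_one_lt (a3 / ‖x‖) h.hl
  exact ⟨j, by rwa [div_lt_iff₀ hx0] at hj⟩

open Classical in
/-- the extension -/
def gg (k : E n → E n) (a3 l : ℝ) (W : E n ≃ E n) (x : E n) : E n :=
  if h : ∃ j : ℕ, a3 < l ^ j * ‖x‖ then GJ k l W h.choose x else 0

theorem gg_zero (h : WD k a3 l μ ε b' W) : gg k a3 l W 0 = 0 := by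
  unfold gg
  rw [dif_neg]
  rintro ⟨j, hj⟩
  rw [norm_zero, mul_zero] at hj
  exact absurd h.ha (not_lt.2 hj.le)

theorem gg_eq (h : WD k a3 l μ ε b' W) {j : ℕ} {x : E n} (hx : a3 ≤ l ^ j * ‖x‖) :
    gg k a3 l W x = GJ k l W j x := by
  have hx0 : x ≠ 0 := fun e => by
    rw [e, norm_zero, mul_zero] at hx
    exact absurd h.ha (not_lt.2 hx)
  have hex := exists_j h hx0
  unfold gg
  rw [dif_pos hex]
  rw [← GJ_le h (le_max_left hex.choose j) hex.choose_spec.le, ← GJ_le h (le_max_right hex.choose j) hx]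

theorem gg_far (h : WD k a3 l μ ε b' W) {x : E n} (hx : a3 ≤ ‖x‖) : gg k a3 l W x = k x := by
  rw [gg_eq h (j := 0) (by rwa [pow_zero, one_mul])]
  unfold GJ
  rw [iterate_zero_apply, pow_zero, one_smul]

theorem W_zero (h : WD k a3 l μ ε b' W) : W 0 = 0 := by
  rw [h.near 0 (by rw [norm_zero]; exact h.hε), smul_zero]

theorem iter_comm (j : ℕ) (y : E n) : (W.symm)^[j] (W y) = W ((W.symm)^[j] y) := by
  induction j with
  | zero => rfl
  | succ j ih =>
    rw [iterate_succ_apply', iterate_succ_apply', ih, Equiv.symm_apply_apply, Equiv.apply_symm_apply]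

theorem gg_scale (h : WD k a3 l μ ε b' W) (x : E n) : W (gg k a3 l W x) = gg k a3 l W (l • x) := by
  have hl0 : 0 < l := zero_lt_one.trans h.hl
  by_cases hx : x = 0
  · rw [hx, smul_zero, gg_zero h, W_zero h]
  · obtain ⟨j, hj⟩ := exists_j h hx
    have hj' : a3 ≤ l ^ j * ‖l • x‖ := by
      rw [norm_smul, Real.norm_of_nonneg hl0.le]
      have h6 : ‖x‖ ≤ l * ‖x‖ := le_mul_of_one_le_left (norm_nonneg x) h.hl.le
      exact hj.le.trans (mul_le_mul_of_nonneg_left h6 (by positivity))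
    rw [gg_eq h hj.le, gg_eq h hj']
    unfold GJ
    have e : l ^ j • l • x = l • l ^ j • x := smul_comm _ _ _
    rw [e, ← h.far (l ^ j • x) ?_, iter_comm]
    rw [norm_smul, Real.norm_of_nonneg (by positivity)]
    exact hj.le

theorem gg_ne (h : WD k a3 l μ ε b' W) (haa : a ≤ a3) (h4 : ∀ x, a ≤ ‖x‖ → ε ≤ ‖k x‖) {x : E n}
    (hx : x ≠ 0) : gg k a3 l W x ≠ 0 := by
  have hl0 : 0 < l := zero_lt_one.trans h.hl
  obtain ⟨j, hj⟩ := exists_j h hx
  rw [gg_eq h hj.le]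
  intro e
  have hz : ∀ j : ℕ, (W.symm)^[j] (0 : E n) = 0 := by
    intro j
    induction j with
    | zero => rfl
    | succ j ih =>
      rw [iterate_succ_apply', ih, Equiv.symm_apply_eq, W_zero h]
  unfold GJ at e
  rw [← hz j] at e
  have h6 := W.symm.injective.iterate j e
  have h7 := h4 (l ^ j • x) (by
    rw [norm_smul, Real.norm_of_nonneg (by positivity)]
    exact haa.trans hj.le)
  rw [h6, norm_zero] at h7
  exact absurd h.hε (not_lt.2 h7)

theorem gg_inj (h : WD k a3 l μ ε b' W) (haa : a ≤ a3) (h2 : InjOn k {x | a ≤ ‖x‖})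
    (h4 : ∀ x, a ≤ ‖x‖ → ε ≤ ‖k x‖) : Injective (gg k a3 l W) := by
  have hl0 : 0 < l := zero_lt_one.trans h.hl
  intro x y hxy
  by_cases hx : x = 0
  · by_cases hy : y = 0
    · rw [hx, hy]
    · rw [hx, gg_zero h] at hxy
      exact absurd hxy.symm (gg_ne h haa h4 hy)
  · by_cases hy : y = 0
    · rw [hy, gg_zero h] at hxy
      exact absurd hxy (gg_ne h haa h4 hx)
    · obtain ⟨i, hi⟩ := exists_j h hx
      obtain ⟨j, hj⟩ := exists_j h hy
      have hi' : a3 ≤ l ^ (max i j) * ‖x‖ :=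
        hi.le.trans (mul_le_mul_of_nonneg_right (pow_le_pow_right₀ h.hl.le (le_max_left i j))
          (norm_nonneg x))
      have hj' : a3 ≤ l ^ (max i j) * ‖y‖ :=
        hj.le.trans (mul_le_mul_of_nonneg_right (pow_le_pow_right₀ h.hl.le (le_max_right i j))
          (norm_nonneg y))
      rw [gg_eq h hi', gg_eq h hj'] at hxy
      have h6 := W.symm.injective.iterate _ hxy
      have hlp : 0 < l ^ (max i j) := pow_pos hl0 _
      have h7 := h2 (show l ^ (max i j) • x ∈ {x : E n | a ≤ ‖x‖} by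
          show a ≤ ‖_‖
          rw [norm_smul, Real.norm_of_nonneg hlp.le]
          exact haa.trans hi')
        (show l ^ (max i j) • y ∈ {x : E n | a ≤ ‖x‖} by
          show a ≤ ‖_‖
          rw [norm_smul, Real.norm_of_nonneg hlp.le]
          exact haa.trans hj') h6
      exact smul_right_injective _ hlp.ne' h7

theorem gg_surj (h : WD k a3 l μ ε b' W) : Surjective (gg k a3 l W) := by
  have hl0 : 0 < l := zero_lt_one.trans h.hl
  intro y
  by_cases hy : y = 0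
  · exact ⟨0, by rw [hy, gg_zero h]⟩
  have hex : ∃ i : ℕ, ε ≤ ‖W^[i] y‖ := by
    by_contra hc
    push Not at hc
    have h6 : ∀ i : ℕ, W^[i] y = μ ^ i • y := by
      intro i
      induction i with
      | zero => rw [iterate_zero_apply, pow_zero, one_smul]
      | succ i ih => rw [iterate_succ_apply', h.near _ (hc i), ih, smul_smul, pow_succ']
    obtain ⟨i, hi⟩ := pow_unbounded_of_one_lt (ε / ‖y‖) h.hμ
    have hy0 : 0 < ‖y‖ := norm_pos_iff.2 hy
    rw [div_lt_iff₀ hy0] at hi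
    have h7 := hc i
    rw [h6, norm_smul, Real.norm_of_nonneg (pow_nonneg (by linarith [h.hμ]) i)] at h7
    linarith
  obtain ⟨i, hi⟩ := hex
  have h6 := h.mid _ hi
  rw [← iterate_succ_apply' W i y] at h6
  obtain ⟨x', hx', hk⟩ := h.img _ h6
  have hlp : 0 < l ^ (i + 1) := pow_pos hl0 _
  refine ⟨(l ^ (i + 1))⁻¹ • x', ?_⟩
  rw [gg_eq h (j := i + 1) ?_]
  · unfold GJ
    rw [smul_smul, mul_inv_cancel₀ hlp.ne', one_smul, hk]
    have h7 : ∀ (m : ℕ) (z : E n), (W.symm)^[m] (W^[m] z) = z := by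
      intro m
      induction m with
      | zero => intro z; rfl
      | succ m ih =>
        intro z
        rw [iterate_succ_apply, iterate_succ_apply', Equiv.symm_apply_apply, ih]
    exact h7 _ _
  · rw [norm_smul, Real.norm_of_nonneg (inv_pos.2 hlp).le, ← mul_assoc, mul_inv_cancel₀ hlp.ne', one_mul]
    exact hx'

theorem iter_LD (h : Dif W) (j : ℕ) (z : E n) : LD n ((W.symm)^[j]) z := by
  induction j generalizing z with
  | zero => exact LD.id z
  | succ j ih =>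
    rw [iterate_succ]
    exact LD.comp' (ih _) (h.symm z)

theorem gg_LD (h : WD k a3 l μ ε b' W) (haa : a ≤ a3) (h1 : ∀ x, a ≤ ‖x‖ → LD n k x) {x : E n}
    (hx : x ≠ 0) : LD n (gg k a3 l W) x := by
  have hl0 : 0 < l := zero_lt_one.trans h.hl
  obtain ⟨j, hj⟩ := exists_j h hx
  have hlp : 0 < l ^ j := pow_pos hl0 _
  have e1 : LD n (fun y : E n => k (l ^ j • y)) x := by
    refine LD.comp_fun (g := k) (f := fun y : E n => l ^ j • y) (h1 _ ?_) (LD_smul hlp.ne' x)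
    rw [norm_smul, Real.norm_of_nonneg hlp.le]
    exact haa.trans hj.le
  have e2 : LD n (GJ k l W j) x :=
    LD.comp_fun (g := (W.symm)^[j]) (f := fun y : E n => k (l ^ j • y)) (iter_LD h.dif j _) e1
  refine e2.congr ?_
  have h6 : {y : E n | a3 < l ^ j * ‖y‖} ∈ 𝓝 x :=
    (isOpen_lt continuous_const (continuous_const.mul continuous_norm)).mem_nhds hj
  filter_upwards [h6] with y hy
  exact gg_eq h (le_of_lt hy)

theorem gg_P0 (h : WD k a3 l μ ε b' W) (hinj : Injective (gg k a3 l W)) {x : E n} (hx : ‖x‖ < a3) :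
    ‖gg k a3 l W x‖ < b' := by
  by_contra hc
  obtain ⟨x', hx', hk⟩ := h.img _ (not_lt.1 hc)
  rw [← gg_far h hx'] at hk
  have := hinj hk
  rw [this] at hx'
  linarith

theorem gg_P1 (h : WD k a3 l μ ε b' W) (hinj : Injective (gg k a3 l W)) {x : E n}
    (hx : l * ‖x‖ < a3) : ‖gg k a3 l W x‖ < ε := by
  by_contra hc
  have hl0 : 0 < l := zero_lt_one.trans h.hl
  have h6 := h.mid _ (not_lt.1 hc)
  rw [gg_scale h] at h6
  have h7 := gg_P0 h hinj (x := l • x) (by rwa [norm_smul, Real.norm_of_nonneg hl0.le])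
  linarith

theorem gg_P (h : WD k a3 l μ ε b' W) (hinj : Injective (gg k a3 l W)) (i : ℕ) : ∀ {x : E n},
    l ^ (i + 1) * ‖x‖ < a3 → ‖gg k a3 l W x‖ * μ ^ i < ε := by
  have hl0 : 0 < l := zero_lt_one.trans h.hl
  have hμ0 : 0 < μ := zero_lt_one.trans h.hμ
  induction i with
  | zero =>
    intro x hx
    rw [zero_add, pow_one] at hx
    rw [pow_zero, mul_one]
    exact gg_P1 h hinj hx
  | succ i ih =>
    intro x hx
    have h6 : l ^ (i + 1) * ‖l • x‖ < a3 := by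
      rw [norm_smul, Real.norm_of_nonneg hl0.le]
      calc l ^ (i + 1) * (l * ‖x‖) = l ^ (i + 1 + 1) * ‖x‖ := by ring
        _ < a3 := hx
    have h7 := ih h6
    have h8 : ‖gg k a3 l W x‖ < ε := by
      refine gg_P1 h hinj (lt_of_le_of_lt ?_ hx)
      refine mul_le_mul_of_nonneg_right ?_ (norm_nonneg x)
      calc l = l ^ 1 := (pow_one l).symm
        _ ≤ l ^ (i + 1 + 1) := pow_le_pow_right₀ h.hl.le (by omega)
    rw [← gg_scale h, h.near _ h8, norm_smul, Real.norm_of_nonneg hμ0.le] at h7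
    calc ‖gg k a3 l W x‖ * μ ^ (i + 1) = μ * ‖gg k a3 l W x‖ * μ ^ i := by ring
      _ < ε := h7

theorem gg_Q (h : WD k a3 l μ ε b' W) (haa : a ≤ a3) (h4 : ∀ x, a ≤ ‖x‖ → ε ≤ ‖k x‖) (i : ℕ) :
    ∀ {x : E n}, a3 ≤ l ^ i * ‖x‖ → ε ≤ μ ^ i * ‖gg k a3 l W x‖ := by
  have hl0 : 0 < l := zero_lt_one.trans h.hl
  have hμ0 : 0 < μ := zero_lt_one.trans h.hμ
  induction i with
  | zero =>
    intro x hx
    rw [pow_zero, one_mul] at hx ⊢
    rw [gg_far h hx]
    exact h4 x (haa.trans hx)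
  | succ i ih =>
    intro x hx
    have h6 : a3 ≤ l ^ i * ‖l • x‖ := by
      rw [norm_smul, Real.norm_of_nonneg hl0.le]
      calc a3 ≤ l ^ (i + 1) * ‖x‖ := hx
        _ = l ^ i * (l * ‖x‖) := by ring
    have h7 := ih h6
    rw [← gg_scale h] at h7
    by_cases h8 : ‖gg k a3 l W x‖ < ε
    · rw [h.near _ h8, norm_smul, Real.norm_of_nonneg hμ0.le] at h7
      calc ε ≤ μ ^ i * (μ * ‖gg k a3 l W x‖) := h7
        _ = μ ^ (i + 1) * ‖gg k a3 l W x‖ := by ring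
    · exact (not_lt.1 h8).trans (le_mul_of_one_le_left (norm_nonneg _) (one_le_pow₀ h.hμ.le))

end limit

theorem punc : Pool.Agent.Y522.TP.StPunc := by
  intro n k a ε b ha hε h1 h2 h3 h4 h5
  obtain ⟨l, μ, b', W, h⟩ := exists_WD ha hε h1 h2 h3 h4 h5
  have haa : a ≤ 3 * a := by linarith
  have hl0 : 0 < l := zero_lt_one.trans h.hl
  have hμ0 : 0 < μ := zero_lt_one.trans h.hμ
  have hinj := gg_inj h haa h2 h4
  have hsurj := gg_surj h
  obtain ⟨e, he⟩ : ∃ e : E n ≃ E n, (e : E n → E n) = gg k (3 * a) l W :=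
    ⟨Equiv.ofBijective _ ⟨hinj, hsurj⟩, rfl⟩
  have hLD : ∀ x, x ≠ 0 → LD n e x := by
    intro x hx
    rw [he]
    exact gg_LD h haa h1 hx
  have he0 : e 0 = 0 := by rw [he]; exact gg_zero h
  have hcont : Continuous e := by
    rw [continuous_iff_continuousAt]
    intro x
    by_cases hx : x = 0
    · rw [hx, Metric.continuousAt_iff]
      intro δ hδ
      obtain ⟨i, hi⟩ := pow_unbounded_of_one_lt (ε / δ) h.hμ
      rw [div_lt_iff₀ hδ] at hi
      have hlp : 0 < l ^ (i + 1) := pow_pos hl0 _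
      have hμp : 0 < μ ^ i := pow_pos hμ0 _
      refine ⟨3 * a / l ^ (i + 1), by positivity, fun y hy => ?_⟩
      rw [dist_zero_right, lt_div_iff₀ hlp] at hy
      rw [he0, dist_zero_right, he]
      have h6 := gg_P h hinj i (x := y) (by rw [mul_comm]; exact hy)
      by_contra hc
      rw [not_lt] at hc
      have h7 := mul_le_mul_of_nonneg_right hc hμp.le
      linarith
    · exact (hLD x hx).continuousAt
  have hconts : Continuous e.symm := by
    rw [continuous_iff_continuousAt]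
    intro y
    obtain ⟨x, rfl⟩ := e.surjective y
    by_cases hx : x = 0
    · rw [hx, he0, Metric.continuousAt_iff]
      intro δ hδ
      obtain ⟨i, hi⟩ := pow_unbounded_of_one_lt (3 * a / δ) h.hl
      rw [div_lt_iff₀ hδ] at hi
      have hlp : 0 < l ^ i := pow_pos hl0 _
      have hμp : 0 < μ ^ i := pow_pos hμ0 _
      refine ⟨ε / μ ^ i, by positivity, fun y hy => ?_⟩
      rw [dist_zero_right, lt_div_iff₀ hμp] at hy
      have h6 : e.symm 0 = 0 := by rw [Equiv.symm_apply_eq, he0]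
      rw [h6, dist_zero_right]
      by_contra hc
      rw [not_lt] at hc
      have h7 := gg_Q h haa h4 i (x := e.symm y) (by
        have h8 := mul_le_mul_of_nonneg_left hc hlp.le
        linarith)
      have h9 : gg k (3 * a) l W (e.symm y) = y := by
        rw [← he, Equiv.apply_symm_apply]
      rw [h9] at h7
      linarith
    · exact (LD.inverse (k := e) (U := {x | x ≠ 0}) isOpen_ne (fun z hz => hLD z hz)
        (fun z _ => e.symm_apply_apply z) hx).continuousAt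
  refine ⟨⟨e, hcont, hconts⟩, 3 * a, he0, hLD, haa, fun x hx => ?_⟩
  show e x = k x
  rw [he]
  exact gg_far h hx

end Pool.Agent.Y901.TP
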